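import Pool.Agent.Helper68.Dom.Goals

/-!
# Packet DOM-SETG (MP_18808e_co)
-/

set_option autoImplicit false

namespace NApexGraphs.Dom.Helper57

open SimpleGraph NApexGraphs NApexGraphs.Dom

theorem gSETG : Goals.SETG := by
  classical
  intro V _ G n u hmin hdom
  refine ⟨hdom, ?_, ?_⟩
  · intro X hX hpl
    exact hmin.1 ⟨X, hX, (pl_iff _ _).1 hpl⟩
  · intro x hx
    have hfin : Fintype V := Fintype.ofFinite V
    set G' := G.deleteEdges {s(u, x)} with hG'
    have hle : G' ≤ G := SimpleGraph.deleteEdges_le _
    have hux : G.Adj u x := hdom x hx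
    have hux' : ¬ G'.Adj u x := by
      rw [hG', SimpleGraph.deleteEdges_adj]
      rintro ⟨-, h⟩
      exact h rfl
    let e : V ≃ Fin (Fintype.card V) := Fintype.equivFin V
    let H : SimpleGraph (Fin (Fintype.card V)) := G'.comap e.symm
    let iso : H ≃g G' := SimpleGraph.Iso.comap e.symm G'
    have hmin' : IsMinor H G := (IsMinor.of_iso iso).trans
      (isMinor_of_injective id Function.injective_id fun _ _ h => hle h)
    have hemp : IsEmpty (H ≃g G) := by
      constructor
      intro f
      let g : G' ≃g G := iso.symm.trans f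
      have h1 := SimpleGraph.Iso.card_edgeFinset_eq g
      have hlt : G' < G := by
        refine lt_of_le_not_ge hle fun h => hux' (h hux)
      have h2 := Finset.card_lt_card (SimpleGraph.edgeFinset_ssubset_edgeFinset.2 hlt)
      omega
    have hap : NApex n G' := NApex.of_isMinor (IsMinor.of_iso iso.symm)
      (hmin.2 _ H hmin' hemp)
    obtain ⟨X, hX, hP⟩ := hap
    exact ⟨X, hX, (pl_iff _ _).2 hP⟩

end NApexGraphs.Dom.Helper57
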